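import Pool.Agent.Lib_MP_22d2c8_sto.Cut

/-!
# Averaging over the pointers
-/

namespace Pool.Agent.Lib_MP_22d2c8_sto

open Finset

variable {a : ℕ}

/-- The bound for one cut: if the places in `J` are read only from the time `θ` on and the gates
have at most `q` sources, then at each time `t < θ + D` the number of data bits in `B` is at most about
the number of gates of the cut. -/
theorem cut_bound (C : Circuit ((Fin a → Bool) ⊕ (Fin a × Fin a))) (hC : C.Computes (ptr a))
    {q : ℕ} (hq1 : 1 ≤ q) (hq : C.FanInLE q) {time : Fin C.size → ℕ} (ht : C.IsSchedule time)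
    (θ D t : ℕ) (htD : t < θ + D) (ha : 1 ≤ a) (J : Finset (Fin a → Bool))
    (hJ : ∀ w ∈ J, ∀ g, Sum.inl (Sum.inl w) ∈ C.src g → θ ≤ time g)
    (hJc : a * (a * q ^ D) ≤ J.card) (B : Finset (Fin a → Bool))
    (hB : ∀ w ∈ B, ∀ g, Sum.inl (Sum.inl w) ∈ C.src g → time g ≤ t) :
    (B.card : ℝ) ≤ a + ((width C time t).card + 1) * (1 + 2 / a) := by
  classical
  set m : ℕ := a * q ^ D with hm
  have hqD : 1 ≤ q ^ D := Nat.one_le_pow _ _ hq1
  have hm0 : 0 < m := by positivity
  have hmR : (0 : ℝ) < m := by exact_mod_cast hm0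
  have haR : (0 : ℝ) < a := by exact_mod_cast ha
  -- an injection of `a` disjoint groups of `m` places into `J`
  have hcardle : Fintype.card (Fin a × Fin m) ≤ Fintype.card J := by
    rw [Fintype.card_prod, Fintype.card_fin, Fintype.card_fin, Fintype.card_coe]
    exact hJc
  obtain ⟨e0⟩ := Function.Embedding.nonempty_of_card_le hcardle
  set e : Fin a × Fin m → (Fin a → Bool) := fun p => (e0 p).1 with he
  have he_inj : Function.Injective e := fun p p' h => e0.injective (Subtype.ext h)
  have he_mem : ∀ p, e p ∈ J := fun p => (e0 p).2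
  -- the number of the places in the groups that reach a gate
  set d : Fin C.size → Fin a → ℕ := fun u k =>
    (univ.filter fun j : Fin m => C.Reach (Sum.inl (e (k, j))) u).card with hd
  have hdsum : ∀ u, time u ≤ t → ∑ k, d u k ≤ q ^ D := by
    intro u hu
    set Z : Finset ((Fin a → Bool) ⊕ (Fin a × Fin a)) :=
      univ.image (fun p : Fin a × Fin m => (Sum.inl (e p) : (Fin a → Bool) ⊕ (Fin a × Fin a))) with hZ
    have hZt : ∀ i ∈ Z, ∀ g, Sum.inl i ∈ C.src g → θ ≤ time g := by
      intro i hi g hg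
      simp only [hZ, Finset.mem_image, Finset.mem_univ, true_and] at hi
      obtain ⟨p, rfl⟩ := hi
      exact hJ _ (he_mem p) g hg
    have h1 := C.reach_card hq1 hq ht θ Z hZt _ u rfl
    have h2 : (Z.filter (fun i => C.Reach i u)).card ≤ q ^ D := by
      by_cases hlt : time u < θ
      · rw [h1.1 hlt]
        simp
      · refine (h1.2 (by omega)).trans ?_
        exact Nat.pow_le_pow_right hq1 (by omega)
    refine le_trans ?_ h2
    have h3 : ∑ k, d u k =
        ((univ : Finset (Fin a)).sigma fun k => univ.filter fun j : Fin m =>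
          C.Reach (Sum.inl (e (k, j))) u).card := by
      rw [Finset.card_sigma]
    rw [h3]
    refine Finset.card_le_card_of_injOn
      (fun p : (Σ _ : Fin a, Fin m) => (Sum.inl (e (p.1, p.2)) : (Fin a → Bool) ⊕ (Fin a × Fin a)))
      ?_ ?_
    · intro p hp
      simp only [Finset.coe_sigma, Set.mem_sigma_iff, Finset.mem_coe, Finset.mem_univ, true_and,
        Finset.mem_filter] at hp
      rw [Finset.mem_coe, Finset.mem_filter]
      refine ⟨?_, hp⟩
      simp only [hZ, Finset.mem_image, Finset.mem_univ, true_and]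
      exact ⟨(p.1, p.2), rfl⟩
    · intro p _ p' _ hpp
      have h4 : e (p.1, p.2) = e (p'.1, p'.2) := Sum.inl_injective hpp
      have h5 := he_inj h4
      rcases p with ⟨p1, p2⟩
      rcases p' with ⟨p1', p2'⟩
      simp only [Prod.mk.injEq] at h5
      obtain ⟨h6, h7⟩ := h5
      subst h6
      subst h7
      rfl
  -- the sum over all choices
  have hone : ∀ c : Fin a → Fin m,
      (B.card : ℝ) - a ≤ ∑ u ∈ cut C time t, (2 : ℝ) ^ (touch C (fun k => e (k, c k)) u).card := by
    intro c
    have hα : Function.Injective (fun k => e (k, c k)) := by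
      intro k k' hk
      have := he_inj hk
      exact (Prod.mk.inj this).1
    have h1 := count_one C hC t B hB hα
    have h2 : (B.card : ℝ) ≤ a + ∑ u ∈ cut C time t,
        (2 : ℝ) ^ (touch C (fun k => e (k, c k)) u).card := by
      exact_mod_cast h1
    linarith
  have hpow : ∀ u (c : Fin a → Fin m), (2 : ℝ) ^ (touch C (fun k => e (k, c k)) u).card =
      ∏ k, (if C.Reach (Sum.inl (e (k, c k))) u then (2 : ℝ) else 1) := by
    intro u c
    rw [Finset.prod_ite]
    simp only [Finset.prod_const, touch, one_pow, mul_one]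
  have hfac : ∀ u, ∑ c : Fin a → Fin m, (2 : ℝ) ^ (touch C (fun k => e (k, c k)) u).card =
      ∏ k, ((m : ℝ) + d u k) := by
    intro u
    simp_rw [hpow]
    have h1 := Finset.prod_univ_sum (fun _ : Fin a => (univ : Finset (Fin m)))
      (fun k j => (if C.Reach (Sum.inl (e (k, j))) u then (2 : ℝ) else 1))
    rw [Fintype.piFinset_univ] at h1
    rw [← h1]
    refine Finset.prod_congr rfl fun k _ => ?_
    have h2 : ∀ j : Fin m, (if C.Reach (Sum.inl (e (k, j))) u then (2 : ℝ) else 1) =
        1 + (if C.Reach (Sum.inl (e (k, j))) u then (1 : ℝ) else 0) := by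
      intro j
      split_ifs <;> norm_num
    simp_rw [h2]
    rw [Finset.sum_add_distrib]
    simp [hd]
  have hexp : ∀ u ∈ cut C time t, ∏ k, ((m : ℝ) + d u k) ≤ (m : ℝ) ^ a * (1 + 2 / a) := by
    intro u hu
    have hut : time u ≤ t := by
      simp only [cut, Finset.mem_filter, Finset.mem_univ, true_and] at hu
      exact hu.1
    have h1 : ∀ k ∈ (univ : Finset (Fin a)), (m : ℝ) + d u k ≤ m * Real.exp ((d u k : ℝ) / m) := by
      intro k _
      have h2 := Real.add_one_le_exp ((d u k : ℝ) / m)
      have h3 : (m : ℝ) + d u k = m * ((d u k : ℝ) / m + 1) := by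
        field_simp
        ring
      rw [h3]
      exact mul_le_mul_of_nonneg_left h2 hmR.le
    have h4 : ∏ k, ((m : ℝ) + d u k) ≤ ∏ k : Fin a, (m * Real.exp ((d u k : ℝ) / m)) := by
      refine Finset.prod_le_prod ?_ h1
      intro k _
      positivity
    have h5 : ∏ k : Fin a, (m * Real.exp ((d u k : ℝ) / m)) =
        (m : ℝ) ^ a * Real.exp (∑ k, (d u k : ℝ) / m) := by
      rw [Finset.prod_mul_distrib, Real.exp_sum]
      simp
    have h6 : ∑ k, (d u k : ℝ) / m ≤ 1 / a := by
      rw [← Finset.sum_div]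
      have h7 : ∑ k, (d u k : ℝ) ≤ (q : ℝ) ^ D := by exact_mod_cast hdsum u hut
      have h8 : (m : ℝ) = a * (q : ℝ) ^ D := by rw [hm]; push_cast; ring
      rw [div_le_div_iff₀ hmR haR, h8]
      nlinarith
    have h7 : 0 ≤ ∑ k, (d u k : ℝ) / m := Finset.sum_nonneg fun k _ => by positivity
    have h8 : (1 : ℝ) / a ≤ 1 := by
      rw [div_le_one haR]
      exact_mod_cast ha
    have h9 : Real.exp (∑ k, (d u k : ℝ) / m) ≤ 1 + 2 / a := by
      have h10 := Real.abs_exp_sub_one_le (x := ∑ k, (d u k : ℝ) / m)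
        (by rw [abs_of_nonneg h7]; linarith)
      rw [abs_of_nonneg h7] at h10
      have h11 := le_of_abs_le h10
      have h12 : 2 * (∑ k, (d u k : ℝ) / m) ≤ 2 / a := by
        have : (2 : ℝ) / a = 2 * (1 / a) := by ring
        rw [this]
        linarith
      linarith
    calc ∏ k, ((m : ℝ) + d u k) ≤ (m : ℝ) ^ a * Real.exp (∑ k, (d u k : ℝ) / m) := by
          rw [← h5]; exact h4
      _ ≤ (m : ℝ) ^ a * (1 + 2 / a) := by
          refine mul_le_mul_of_nonneg_left h9 (by positivity)
  have htot : (m : ℝ) ^ a * ((B.card : ℝ) - a) ≤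
      (m : ℝ) ^ a * ((cut C time t).card * (1 + 2 / a)) := by
    have h1 : ∑ _c : Fin a → Fin m, ((B.card : ℝ) - a) ≤
        ∑ c : Fin a → Fin m, ∑ u ∈ cut C time t,
          (2 : ℝ) ^ (touch C (fun k => e (k, c k)) u).card :=
      Finset.sum_le_sum fun c _ => hone c
    rw [Finset.sum_comm] at h1
    have h2 : ∑ u ∈ cut C time t, ∑ c : Fin a → Fin m,
        (2 : ℝ) ^ (touch C (fun k => e (k, c k)) u).card ≤
        ∑ _u ∈ cut C time t, (m : ℝ) ^ a * (1 + 2 / a) := by
      refine Finset.sum_le_sum fun u hu => ?_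
      rw [hfac u]
      exact hexp u hu
    have h3 : ∑ _c : Fin a → Fin m, ((B.card : ℝ) - a) = (m : ℝ) ^ a * ((B.card : ℝ) - a) := by
      rw [Finset.sum_const, Finset.card_univ, Fintype.card_fun, Fintype.card_fin, Fintype.card_fin,
        nsmul_eq_mul]
      push_cast
      ring
    have h4 : ∑ _u ∈ cut C time t, (m : ℝ) ^ a * (1 + 2 / a) =
        (m : ℝ) ^ a * ((cut C time t).card * (1 + 2 / a)) := by
      rw [Finset.sum_const, nsmul_eq_mul]
      ring
    rw [h3] at h1
    rw [h4] at h2
    exact h1.trans h2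
  have hpos : (0 : ℝ) < (m : ℝ) ^ a := by positivity
  have h1 := le_of_mul_le_mul_left htot hpos
  have h2 : ((cut C time t).card : ℝ) ≤ (width C time t).card + 1 := by
    exact_mod_cast cut_card C time t
  have h3 : (0 : ℝ) ≤ 1 + 2 / a := by positivity
  have h4 := mul_le_mul_of_nonneg_right h2 h3
  linarith

end Pool.Agent.Lib_MP_22d2c8_sto
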