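import Pool.Agent.Lib_MP_22d2c8_sto.Defs

/-!
# Cuts of scheduled circuits for the pointer function
-/

namespace Pool.Agent.Lib_MP_22d2c8_sto

open Finset

namespace Circuit

variable {V : Type} (C : Circuit V)

/-- The gate can be reached from the input variable `i`. -/
inductive Reach (i : V) : Fin C.size → Prop
  | base {g : Fin C.size} : Sum.inl i ∈ C.src g → Reach i g
  | step {h g : Fin C.size} : Reach i h → Sum.inr h ∈ C.src g → Reach i g

theorem val_congr {x x' : V → Bool} {v v' : Fin C.size → Bool} (hv : C.IsVal x v)
    (hv' : C.IsVal x' v') :
    ∀ (n : ℕ) (g : Fin C.size), g.val = n → (∀ i, C.Reach i g → x i = x' i) → v g = v' g := by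
  intro n
  induction n using Nat.strong_induction_on with
  | _ n ih =>
    intro g hg hx
    rw [hv g, hv' g]
    apply C.op_local
    intro s hs
    rcases s with i | h
    · simp only [Sum.elim_inl]
      exact hx i (Reach.base hs)
    · simp only [Sum.elim_inr]
      have hlt : h < g := C.src_lt g h hs
      exact ih h.val (by rw [← hg]; exact hlt) h rfl
        (fun i hi => hx i (Reach.step hi hs))

open Classical in
/-- Few input variables that are read only from the time `θ` on can be reached early. -/
theorem reach_card {q : ℕ} (hq1 : 1 ≤ q) (hq : C.FanInLE q) {time : Fin C.size → ℕ}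
    (ht : C.IsSchedule time) (θ : ℕ) (Z : Finset V)
    (hZ : ∀ i ∈ Z, ∀ g, Sum.inl i ∈ C.src g → θ ≤ time g) :
    ∀ (n : ℕ) (u : Fin C.size), u.val = n →
      (time u < θ → Z.filter (fun i => C.Reach i u) = ∅) ∧
      (θ ≤ time u → (Z.filter (fun i => C.Reach i u)).card ≤ q ^ (time u + 1 - θ)) := by
  intro n
  induction n using Nat.strong_induction_on with
  | _ n ih =>
    intro u hu
    have hIH : ∀ h : Fin C.size, Sum.inr h ∈ C.src u →
        (time h < θ → Z.filter (fun i => C.Reach i h) = ∅) ∧
        (θ ≤ time h → (Z.filter (fun i => C.Reach i h)).card ≤ q ^ (time h + 1 - θ)) := by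
      intro h hh
      have hlt : h < u := C.src_lt u h hh
      exact ih h.val (by rw [← hu]; exact hlt) h rfl
    constructor
    · intro hlt
      rw [Finset.filter_eq_empty_iff]
      intro i hi hr
      cases hr with
      | base hb =>
        have := hZ i hi u hb
        omega
      | @step h _ hr' hh =>
        have h1 : time h < time u := ht u h hh
        have h2 := (hIH h hh).1 (by omega)
        have h3 : i ∈ Z.filter (fun i => C.Reach i h) := Finset.mem_filter.mpr ⟨hi, hr'⟩
        rw [h2] at h3
        exact absurd h3 (Finset.notMem_empty i)
    · intro hge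
      set f : V ⊕ Fin C.size → Finset V := fun s =>
        Sum.elim (fun i => ({i} : Finset V)) (fun h => Z.filter (fun i => C.Reach i h)) s with hf
      have hsub : Z.filter (fun i => C.Reach i u) ⊆ (C.src u).biUnion f := by
        intro i hi
        rw [Finset.mem_filter] at hi
        rw [Finset.mem_biUnion]
        cases hi.2 with
        | base hb => exact ⟨Sum.inl i, hb, by simp [hf]⟩
        | @step h _ hr' hh =>
          exact ⟨Sum.inr h, hh, by simp only [hf, Sum.elim_inr, Finset.mem_filter]; exact ⟨hi.1, hr'⟩⟩
      have hcard : ∀ s ∈ C.src u, (f s).card ≤ q ^ (time u - θ) := by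
        intro s hs
        rcases s with i | h
        · simp only [hf, Sum.elim_inl, Finset.card_singleton]
          exact Nat.one_le_pow _ _ hq1
        · simp only [hf, Sum.elim_inr]
          have h1 : time h < time u := ht u h hs
          by_cases hh : time h < θ
          · rw [(hIH h hs).1 hh]
            simp
          · refine ((hIH h hs).2 (by omega)).trans ?_
            exact Nat.pow_le_pow_right hq1 (by omega)
      calc (Z.filter (fun i => C.Reach i u)).card ≤ ((C.src u).biUnion f).card :=
            Finset.card_le_card hsub
        _ ≤ (C.src u).card * q ^ (time u - θ) := Finset.card_biUnion_le_card_mul _ _ _ hcard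
        _ ≤ q * q ^ (time u - θ) := Nat.mul_le_mul_right _ (hq u)
        _ = q ^ (time u + 1 - θ) := by
            rw [← pow_succ']
            congr 1
            omega

end Circuit

variable {a : ℕ}

open Classical in
/-- The input with the pointers `α`, the word `S` at their places, the bits `T` at the places in `B`,
and zeros elsewhere. -/
noncomputable def inp (α : Fin a → (Fin a → Bool)) (S : Finset (Fin a)) (T : Finset (Fin a → Bool)) :
    (Fin a → Bool) ⊕ (Fin a × Fin a) → Bool
  | Sum.inl w => if h : ∃ k, α k = w then decide (h.choose ∈ S) else decide (w ∈ T)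
  | Sum.inr (k, l) => α k l

theorem inp_at {α : Fin a → (Fin a → Bool)} (hα : Function.Injective α) (S : Finset (Fin a))
    (T : Finset (Fin a → Bool)) (k : Fin a) : inp α S T (Sum.inl (α k)) = decide (k ∈ S) := by
  have h : ∃ k', α k' = α k := ⟨k, rfl⟩
  have h2 : h.choose = k := hα h.choose_spec
  simp only [inp]
  rw [dif_pos h, h2]

theorem inp_off {α : Fin a → (Fin a → Bool)} (S : Finset (Fin a))
    (T : Finset (Fin a → Bool)) (w : Fin a → Bool) (hw : ∀ k, α k ≠ w) :
    inp α S T (Sum.inl w) = decide (w ∈ T) := by
  have h : ¬ ∃ k', α k' = w := by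
    rintro ⟨k, hk⟩
    exact hw k hk
  simp only [inp]
  rw [dif_neg h]

theorem ptr_inp {α : Fin a → (Fin a → Bool)} (hα : Function.Injective α) (S : Finset (Fin a))
    (T : Finset (Fin a → Bool)) :
    ptr a (inp α S T) = inp α S T (Sum.inl fun k => decide (k ∈ S)) := by
  unfold ptr
  congr 2
  funext k
  have : (fun l => inp α S T (Sum.inr (k, l))) = α k := by
    funext l
    simp only [inp]
  rw [this, inp_at hα]

open Classical in
/-- The gates that work at time at most `t` and are read later. -/
noncomputable def width {V : Type} (C : Circuit V) (time : Fin C.size → ℕ) (t : ℕ) :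
    Finset (Fin C.size) :=
  univ.filter fun u => time u ≤ t ∧ ∃ g, Sum.inr u ∈ C.src g ∧ t < time g

open Classical in
/-- The gates of the cut at time `t`, together with the output. -/
noncomputable def cut {V : Type} (C : Circuit V) (time : Fin C.size → ℕ) (t : ℕ) :
    Finset (Fin C.size) :=
  univ.filter fun u => time u ≤ t ∧ (u = C.out ∨ ∃ g, Sum.inr u ∈ C.src g ∧ t < time g)

theorem cut_card {V : Type} (C : Circuit V) (time : Fin C.size → ℕ) (t : ℕ) :
    (cut C time t).card ≤ (width C time t).card + 1 := by
  classical
  have : cut C time t ⊆ insert C.out (width C time t) := by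
    intro u hu
    simp only [cut, width, Finset.mem_filter, Finset.mem_insert, Finset.mem_univ, true_and] at hu ⊢
    tauto
  exact (Finset.card_le_card this).trans (Finset.card_insert_le _ _)

open Classical in
/-- The pointers whose places can reach the gate `u`. -/
noncomputable def touch (C : Circuit ((Fin a → Bool) ⊕ (Fin a × Fin a)))
    (α : Fin a → (Fin a → Bool)) (u : Fin C.size) : Finset (Fin a) :=
  univ.filter fun k => C.Reach (Sum.inl (α k)) u

/-- The count for one choice of the pointers. -/
theorem count_one (C : Circuit ((Fin a → Bool) ⊕ (Fin a × Fin a))) (hC : C.Computes (ptr a))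
    {time : Fin C.size → ℕ} (t : ℕ) (B : Finset (Fin a → Bool))
    (hB : ∀ w ∈ B, ∀ g, Sum.inl (Sum.inl w) ∈ C.src g → time g ≤ t)
    {α : Fin a → (Fin a → Bool)} (hα : Function.Injective α) :
    B.card ≤ a + ∑ u ∈ cut C time t, 2 ^ (touch C α u).card := by
  classical
  choose val hval hout using hC
  set B' : Finset (Fin a → Bool) := B \ Finset.univ.image α with hB'
  have hBB' : B.card ≤ a + B'.card := by
    have h1 : B ⊆ (Finset.univ.image α) ∪ B' := by
      intro w hw
      simp only [hB', Finset.mem_union, Finset.mem_sdiff]
      tauto
    calc B.card ≤ ((Finset.univ.image α) ∪ B').card := Finset.card_le_card h1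
      _ ≤ (Finset.univ.image α).card + B'.card := Finset.card_union_le _ _
      _ ≤ (Finset.univ : Finset (Fin a)).card + B'.card :=
          Nat.add_le_add_right Finset.card_image_le _
      _ = a + B'.card := by simp
  have hoff : ∀ w ∈ B', ∀ k, α k ≠ w := by
    intro w hw k hk
    simp only [hB', Finset.mem_sdiff, Finset.mem_image, Finset.mem_univ, true_and] at hw
    exact hw.2 ⟨k, hk⟩
  set P : Finset (Σ _ : Fin C.size, Finset (Fin a)) :=
    (cut C time t).sigma fun u => (touch C α u).powerset with hP
  have hPcard : P.card = ∑ u ∈ cut C time t, 2 ^ (touch C α u).card := by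
    rw [hP, Finset.card_sigma]
    exact Finset.sum_congr rfl fun u _ => Finset.card_powerset _
  set Φ : Finset (Fin a → Bool) → Finset (Σ _ : Fin C.size, Finset (Fin a)) := fun T =>
    P.filter fun p => val (inp α p.2 T) p.1 = true with hΦ
  have hinj : Set.InjOn Φ (B'.powerset : Finset (Finset (Fin a → Bool))) := by
    intro T hT T' hT' hTT
    rw [Finset.mem_coe, Finset.mem_powerset] at hT hT'
    -- the gates of the cut
    have hcut : ∀ u ∈ cut C time t, ∀ S : Finset (Fin a),
        val (inp α S T) u = val (inp α S T') u := by
      intro u hu S
      have key : ∀ R : Finset (Fin a → Bool),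
          val (inp α S R) u = val (inp α (S ∩ touch C α u) R) u := by
        intro R
        refine C.val_congr (hval _) (hval _) _ u rfl ?_
        intro i hi
        rcases i with w | ⟨k, l⟩
        · by_cases hw : ∃ k, α k = w
          · obtain ⟨k, rfl⟩ := hw
            rw [inp_at hα, inp_at hα]
            have hk : k ∈ touch C α u := by
              simp only [touch, Finset.mem_filter, Finset.mem_univ, true_and]
              exact hi
            simp [hk]
          · push Not at hw
            rw [inp_off _ _ _ hw, inp_off _ _ _ hw]
        · simp only [inp]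
      rw [key T, key T']
      have hmem : (⟨u, S ∩ touch C α u⟩ : Σ _ : Fin C.size, Finset (Fin a)) ∈ P := by
        simp only [hP, Finset.mem_sigma, Finset.mem_powerset]
        exact ⟨hu, Finset.inter_subset_right⟩
      have h1 : ((⟨u, S ∩ touch C α u⟩ : Σ _ : Fin C.size, Finset (Fin a)) ∈ Φ T) ↔
          ((⟨u, S ∩ touch C α u⟩ : Σ _ : Fin C.size, Finset (Fin a)) ∈ Φ T') := by
        rw [hTT]
      simp only [hΦ, Finset.mem_filter, hmem, true_and] at h1
      rw [Bool.eq_iff_iff]
      exact h1
    -- the gates above the cut
    have habove : ∀ (S : Finset (Fin a)) (n : ℕ) (g : Fin C.size), g.val = n → t < time g →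
        val (inp α S T) g = val (inp α S T') g := by
      intro S n
      induction n using Nat.strong_induction_on with
      | _ n ih =>
        intro g hg htg
        rw [hval _ g, hval _ g]
        apply C.op_local
        intro s hs
        rcases s with i | h
        · simp only [Sum.elim_inl]
          rcases i with w | ⟨k, l⟩
          · by_cases hw : ∃ k, α k = w
            · obtain ⟨k, rfl⟩ := hw
              rw [inp_at hα, inp_at hα]
            · push Not at hw
              rw [inp_off _ _ _ hw, inp_off _ _ _ hw]
              have hwB : w ∉ B := by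
                intro hwB
                have := hB w hwB g hs
                omega
              have h1 : w ∉ T := fun h => hwB (Finset.mem_sdiff.mp (hT h)).1
              have h2 : w ∉ T' := fun h => hwB (Finset.mem_sdiff.mp (hT' h)).1
              simp [h1, h2]
          · simp only [inp]
        · simp only [Sum.elim_inr]
          have hlt : h < g := C.src_lt g h hs
          by_cases hth : t < time h
          · exact ih h.val (by rw [← hg]; exact hlt) h rfl hth
          · refine hcut h ?_ S
            simp only [cut, Finset.mem_filter, Finset.mem_univ, true_and]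
            exact ⟨by omega, Or.inr ⟨g, hs, htg⟩⟩
    have hfin : ∀ S : Finset (Fin a),
        inp α S T (Sum.inl fun k => decide (k ∈ S)) = inp α S T' (Sum.inl fun k => decide (k ∈ S)) := by
      intro S
      rw [← ptr_inp hα, ← ptr_inp hα, ← hout, ← hout]
      by_cases hto : t < time C.out
      · exact habove S _ C.out rfl hto
      · refine hcut C.out ?_ S
        simp only [cut, Finset.mem_filter, Finset.mem_univ, true_and]
        exact ⟨by omega, Or.inl trivial⟩
    have hmem : ∀ w ∈ B', (w ∈ T ↔ w ∈ T') := by
      intro w hw
      have h1 := hfin (Finset.univ.filter fun k => w k = true)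
      have h2 : (fun k => decide (k ∈ Finset.univ.filter fun k => w k = true)) = w := by
        funext k
        simp
      rw [h2, inp_off _ _ _ (hoff w hw), inp_off _ _ _ (hoff w hw)] at h1
      simpa using h1
    ext w
    constructor
    · intro hw
      exact (hmem w (hT hw)).mp hw
    · intro hw
      exact (hmem w (hT' hw)).mpr hw
  have hcard : (B'.powerset).card ≤ (P.powerset).card := by
    refine Finset.card_le_card_of_injOn Φ ?_ hinj
    intro T _
    rw [Finset.mem_coe, Finset.mem_powerset]
    exact Finset.filter_subset _ _
  rw [Finset.card_powerset, Finset.card_powerset] at hcard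
  have h3 : B'.card ≤ P.card := (Nat.pow_le_pow_iff_right (by norm_num)).mp hcard
  omega

end Pool.Agent.Lib_MP_22d2c8_sto
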