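import Mathlib

/-!
# Circuits with arbitrary gates, schedules, and the time for which values must be stored
-/

namespace Pool.Agent.Lib_MP_22d2c8_sto

open Finset

/-- A Boolean circuit with input variables `V`, arbitrary gates and one output. The gates are
numbered `0, ..., size - 1`. The gate `g` reads the values of the finite set `src g` of its sources,
each an input variable or an earlier gate, and `op g` is an arbitrary Boolean function of these
values. Input variables may be read by any number of gates. The value computed by the circuit is that
of the gate `out`. -/
structure Circuit (V : Type) where
  size : ℕ
  src : Fin size → Finset (V ⊕ Fin size)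
  op : Fin size → (V ⊕ Fin size → Bool) → Bool
  op_local : ∀ (g : Fin size) (y y' : V ⊕ Fin size → Bool),
    (∀ s ∈ src g, y s = y' s) → op g y = op g y'
  src_lt : ∀ g h : Fin size, Sum.inr h ∈ src g → h < g
  out : Fin size

namespace Circuit

variable {V : Type}

/-- Every gate has at most `q` sources. -/
def FanInLE (C : Circuit V) (q : ℕ) : Prop := ∀ g, (C.src g).card ≤ q

/-- `v` assigns to every gate its value on the input `x`. -/
def IsVal (C : Circuit V) (x : V → Bool) (v : Fin C.size → Bool) : Prop :=
  ∀ g, v g = C.op g (Sum.elim x v)

/-- The circuit computes `f`: on every input the (unique) valuation of the gates gives the output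
gate the value of `f`. -/
def Computes (C : Circuit V) (f : (V → Bool) → Bool) : Prop :=
  ∀ x, ∃ v, C.IsVal x v ∧ v C.out = f x

/-- `time` is a schedule of the circuit: the gate `g` works at time `time g`, and it works later than
every gate that is a source of it. -/
def IsSchedule (C : Circuit V) (time : Fin C.size → ℕ) : Prop :=
  ∀ g h : Fin C.size, Sum.inr h ∈ C.src g → time h < time g

open Classical in
/-- The gates that read the source `s` (an input variable or a gate). -/
noncomputable def readers (C : Circuit V) (s : V ⊕ Fin C.size) : Finset (Fin C.size) :=
  univ.filter fun g => s ∈ C.src g

/-- The time for which the value of the gate `g` must be stored: from the time of `g` until the last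
time at which this value is read (zero if it is not read). -/
noncomputable def gateStorage (C : Circuit V) (time : Fin C.size → ℕ) (g : Fin C.size) : ℕ :=
  (C.readers (Sum.inr g)).sup fun r => time r - time g

/-- The time for which the input variable `i` must be stored: from the first until the last time at
which it is read (zero if it is not read). -/
noncomputable def inputStorage (C : Circuit V) (time : Fin C.size → ℕ) (i : V) : ℕ :=
  (C.readers (Sum.inl i) ×ˢ C.readers (Sum.inl i)).sup fun p => time p.1 - time p.2

end Circuit

/-- The explicit function. The input consists of `2 ^ a` data bits, indexed by the words of length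
`a`, and of `a` pointers, each a word of length `a` (`a ^ 2` bits). The `a` data bits at the places
given by the pointers form a word; the value is the data bit indexed by this word. -/
def ptr (a : ℕ) (z : (Fin a → Bool) ⊕ (Fin a × Fin a) → Bool) : Bool :=
  z (Sum.inl fun k => z (Sum.inl fun l => z (Sum.inr (k, l))))

end Pool.Agent.Lib_MP_22d2c8_sto
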