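import Pool.Agent.Lib_MP_22d2c8_sto.Avg

/-!
# The storage bound
-/

namespace Pool.Agent.Lib_MP_22d2c8_sto

open Finset

variable {a : ℕ}

open Classical in
/-- The places in `I` of data bits that are read only from the time `θ` on. -/
noncomputable def late (C : Circuit ((Fin a → Bool) ⊕ (Fin a × Fin a))) (time : Fin C.size → ℕ)
    (I : Finset (Fin a → Bool)) (θ : ℕ) : Finset (Fin a → Bool) :=
  I.filter fun w => ∀ g, Sum.inl (Sum.inl w) ∈ C.src g → θ ≤ time g

open Classical in
/-- The places in `I` of data bits that are read only up to the time `t`. -/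
noncomputable def early (C : Circuit ((Fin a → Bool) ⊕ (Fin a × Fin a))) (time : Fin C.size → ℕ)
    (I : Finset (Fin a → Bool)) (t : ℕ) : Finset (Fin a → Bool) :=
  I.filter fun w => ∀ g, Sum.inl (Sum.inl w) ∈ C.src g → time g ≤ t

theorem inputStorage_spec {V : Type} (C : Circuit V) (time : Fin C.size → ℕ) (i : V)
    (g g' : Fin C.size) (hg : Sum.inl i ∈ C.src g) (hg' : Sum.inl i ∈ C.src g') :
    time g ≤ time g' + C.inputStorage time i := by
  classical
  have h1 : (g, g') ∈ C.readers (Sum.inl i) ×ˢ C.readers (Sum.inl i) := by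
    simp only [Circuit.readers, Finset.mem_product, Finset.mem_filter, Finset.mem_univ, true_and]
    exact ⟨hg, hg'⟩
  have h2 := Finset.le_sup (f := fun p : Fin C.size × Fin C.size => time p.1 - time p.2) h1
  simp only at h2
  have h3 : time g - time g' ≤ C.inputStorage time i := h2
  omega

theorem gateStorage_spec {V : Type} (C : Circuit V) (time : Fin C.size → ℕ)
    (u g : Fin C.size) (hg : Sum.inr u ∈ C.src g) :
    time g - time u ≤ C.gateStorage time u := by
  classical
  have h1 : g ∈ C.readers (Sum.inr u) := by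
    simp only [Circuit.readers, Finset.mem_filter, Finset.mem_univ, true_and]
    exact hg
  exact Finset.le_sup (f := fun r : Fin C.size => time r - time u) h1

theorem sum_early (C : Circuit ((Fin a → Bool) ⊕ (Fin a × Fin a))) (time : Fin C.size → ℕ)
    (I : Finset (Fin a → Bool)) (θ D : ℕ) :
    (I.card - (late C time I (θ + 1)).card) * D ≤
      ∑ s ∈ range D, (early C time I (θ + s)).card +
        ∑ w ∈ I, min D (C.inputStorage time (Sum.inl w)) := by
  classical
  have h1 : ∀ w ∈ I, w ∉ late C time I (θ + 1) →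
      D ≤ ((range D).filter fun s => w ∈ early C time I (θ + s)).card +
        min D (C.inputStorage time (Sum.inl w)) := by
    intro w hwI hw
    simp only [late, Finset.mem_filter, hwI, true_and, not_forall, not_le] at hw
    obtain ⟨g0, hg0, hg0t⟩ := hw
    have h2 : (range D).filter (fun s => C.inputStorage time (Sum.inl w) ≤ s) ⊆
        (range D).filter (fun s => w ∈ early C time I (θ + s)) := by
      intro s hs
      rw [Finset.mem_filter] at hs ⊢
      refine ⟨hs.1, ?_⟩
      simp only [early, Finset.mem_filter]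
      refine ⟨hwI, ?_⟩
      intro g hg
      have h3 := inputStorage_spec C time (Sum.inl w) g g0 hg hg0
      have h4 := hs.2
      omega
    have h3 := Finset.card_le_card h2
    have h4 : D ≤ ((range D).filter (fun s => C.inputStorage time (Sum.inl w) ≤ s)).card +
        C.inputStorage time (Sum.inl w) := by
      have h5 : range D ⊆ (range D).filter (fun s => C.inputStorage time (Sum.inl w) ≤ s) ∪
          range (C.inputStorage time (Sum.inl w)) := by
        intro s hs
        rw [Finset.mem_union, Finset.mem_filter, Finset.mem_range (n := C.inputStorage time _)]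
        by_cases h : C.inputStorage time (Sum.inl w) ≤ s
        · exact Or.inl ⟨hs, h⟩
        · exact Or.inr (by omega)
      have h6 := (Finset.card_le_card h5).trans (Finset.card_union_le _ _)
      simpa using h6
    rcases le_total D (C.inputStorage time (Sum.inl w)) with h | h
    · rw [min_eq_left h]
      omega
    · rw [min_eq_right h]
      omega
  have h2 : ∑ s ∈ range D, (early C time I (θ + s)).card =
      ∑ w ∈ I, ((range D).filter fun s => w ∈ early C time I (θ + s)).card := by
    simp_rw [Finset.card_eq_sum_ones, Finset.sum_filter]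
    rw [Finset.sum_comm]
    refine Finset.sum_congr rfl fun s _ => ?_
    rw [← Finset.sum_filter]
    congr 1
    ext w
    simp only [early, Finset.mem_filter]
    tauto
  rw [h2, ← Finset.sum_add_distrib]
  have h3 : ∑ w ∈ I \ late C time I (θ + 1), D ≤
      ∑ w ∈ I \ late C time I (θ + 1),
        (((range D).filter fun s => w ∈ early C time I (θ + s)).card +
          min D (C.inputStorage time (Sum.inl w))) := by
    refine Finset.sum_le_sum fun w hw => ?_
    exact h1 w (Finset.mem_sdiff.mp hw).1 (Finset.mem_sdiff.mp hw).2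
  have h4 : ∑ w ∈ I \ late C time I (θ + 1),
        (((range D).filter fun s => w ∈ early C time I (θ + s)).card +
          min D (C.inputStorage time (Sum.inl w))) ≤
      ∑ w ∈ I,
        (((range D).filter fun s => w ∈ early C time I (θ + s)).card +
          min D (C.inputStorage time (Sum.inl w))) :=
    Finset.sum_le_sum_of_subset Finset.sdiff_subset
  have h5 : ∑ w ∈ I \ late C time I (θ + 1), D =
      (I.card - (late C time I (θ + 1)).card) * D := by
    rw [Finset.sum_const, smul_eq_mul, Finset.card_sdiff_of_subset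
      (show late C time I (θ + 1) ⊆ I from Finset.filter_subset _ _)]
  rw [← h5]
  exact h3.trans h4

theorem sum_width {V : Type} (C : Circuit V) (time : Fin C.size → ℕ) (θ D : ℕ) :
    ∑ s ∈ range D, (width C time (θ + s)).card ≤ ∑ u, C.gateStorage time u := by
  classical
  have h2 : ∑ s ∈ range D, (width C time (θ + s)).card =
      ∑ u, ((range D).filter fun s => u ∈ width C time (θ + s)).card := by
    simp_rw [Finset.card_eq_sum_ones, Finset.sum_filter]
    rw [Finset.sum_comm]
    refine Finset.sum_congr rfl fun s _ => ?_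
    rw [← Finset.sum_filter]
    congr 1
    ext w
    simp
  rw [h2]
  refine Finset.sum_le_sum fun u _ => ?_
  have h3 : ((range D).filter fun s => u ∈ width C time (θ + s)).card ≤
      (range (C.gateStorage time u)).card := by
    refine Finset.card_le_card_of_injOn (fun s => θ + s - time u) ?_ ?_
    · intro s hs
      rw [Finset.mem_coe, Finset.mem_filter] at hs
      have hs2 := hs.2
      simp only [width, Finset.mem_filter, Finset.mem_univ, true_and] at hs2
      obtain ⟨h4, g, hg, hgt⟩ := hs2
      have h5 := gateStorage_spec C time u g hg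
      rw [Finset.mem_coe, Finset.mem_range]
      show θ + s - time u < _
      omega
    · intro s hs s' hs' hss
      rw [Finset.mem_coe, Finset.mem_filter] at hs hs'
      have hs2 := hs.2
      have hs2' := hs'.2
      simp only [width, Finset.mem_filter, Finset.mem_univ, true_and] at hs2 hs2'
      have h4 := hs2.1
      have h4' := hs2'.1
      simp only at hss
      omega
  simpa using h3

/-- The storage bound. -/
theorem storage_bound (a l : ℕ) (hl : 1 ≤ l) (C : Circuit ((Fin a → Bool) ⊕ (Fin a × Fin a)))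
    (hC : C.Computes (ptr a)) (hq : C.FanInLE (2 ^ l)) (time : Fin C.size → ℕ)
    (ht : C.IsSchedule time) (I : Finset (Fin a → Bool)) :
    I.card * Nat.log 2 I.card ≤ l * ∑ g, C.gateStorage time g +
      ∑ w ∈ I, min (Nat.log 2 I.card) (l * C.inputStorage time (Sum.inl w)) +
      I.card * (3 * Nat.clog 2 a + l + 2) := by
  classical
  set c : ℕ := Nat.clog 2 a with hc
  set b : ℕ := Nat.log 2 I.card with hb
  set M : ℕ := I.card with hM
  by_cases hbig : b ≤ 3 * c + l + 2
  · exact (Nat.mul_le_mul_left _ hbig).trans (Nat.le_add_left _ _)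
  push Not at hbig
  have hM0 : M ≠ 0 := by
    intro h0
    rw [h0] at hb
    simp at hb
    omega
  have hbM : 2 ^ b ≤ M := Nat.pow_log_le_self 2 hM0
  have hMa : M ≤ 2 ^ a := by
    have h1 := Finset.card_le_univ I
    simpa using h1
  have hba : b ≤ a := (Nat.pow_le_pow_iff_right (by norm_num)).mp (hbM.trans hMa)
  have hac : a ≤ 2 ^ c := Nat.le_pow_clog (by norm_num) a
  have hc4 : 4 ≤ c := by
    by_contra hlt
    have hc3 : c ≤ 3 := by omega
    interval_cases c <;> omega
  set D : ℕ := (b - 3 * c) / l with hD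
  have hlD : l * D ≤ b - 3 * c := Nat.mul_div_le _ _
  have hlD2 : b - 3 * c < l * D + l := by
    have h1 := Nat.lt_mul_div_succ (b - 3 * c) (show 0 < l by omega)
    calc b - 3 * c < l * ((b - 3 * c) / l + 1) := h1
      _ = l * D + l := by rw [hD]; ring
  have hD1 : 1 ≤ D := by
    by_contra h0
    have h1 : D = 0 := Nat.lt_one_iff.mp (Nat.not_le.mp h0)
    have h2 : l * D = 0 := by rw [h1, Nat.mul_zero]
    omega
  have hq1 : 1 ≤ 2 ^ l := Nat.one_le_pow _ _ (by norm_num)
  have ha1 : 1 ≤ a := by omega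
  set j0 : ℕ := a * (a * (2 ^ l) ^ D) with hj0
  have haj : a * j0 ≤ M := by
    have h1 : (2 ^ l) ^ D ≤ 2 ^ (b - 3 * c) := by
      rw [← pow_mul]
      exact Nat.pow_le_pow_right (by norm_num) hlD
    have h2 : a ^ 3 ≤ 2 ^ (3 * c) := by
      calc a ^ 3 ≤ (2 ^ c) ^ 3 := Nat.pow_le_pow_left hac 3
        _ = 2 ^ (3 * c) := by rw [← pow_mul]; ring_nf
    calc a * j0 = a ^ 3 * (2 ^ l) ^ D := by rw [hj0]; ring
      _ ≤ 2 ^ (3 * c) * 2 ^ (b - 3 * c) := Nat.mul_le_mul h2 h1
      _ = 2 ^ b := by rw [← pow_add]; congr 1; omega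
      _ ≤ M := hbM
  have haj3 : a ^ 3 ≤ M := by
    have h1 : 1 ≤ (2 ^ l) ^ D := Nat.one_le_pow _ _ hq1
    calc a ^ 3 = a ^ 3 * 1 := (mul_one _).symm
      _ ≤ a ^ 3 * (2 ^ l) ^ D := Nat.mul_le_mul_left _ h1
      _ = a * j0 := by rw [hj0]; ring
      _ ≤ M := haj
  have hj0le : j0 ≤ M := le_trans (Nat.le_mul_of_pos_left _ (by omega)) haj
  -- the threshold
  have hex : ∃ θ, (late C time I θ).card < j0 := by
    by_contra hno
    push Not at hno
    set T : ℕ := (univ.sup time) + 1 with hT
    have htT : ∀ g, time g < T := fun g => Nat.lt_succ_of_le (Finset.le_sup (Finset.mem_univ g))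
    have h1 := cut_bound C hC hq1 hq ht T D T (by omega) ha1 (late C time I T)
      (fun w hw g hg => (Finset.mem_filter.mp hw).2 g hg) (hno T) I
      (fun w _ g _ => (htT g).le)
    have h2 : (width C time T).card = 0 := by
      rw [Finset.card_eq_zero]
      refine Finset.eq_empty_of_forall_notMem fun u hu => ?_
      simp only [width, Finset.mem_filter, Finset.mem_univ, true_and] at hu
      obtain ⟨_, g, _, hg⟩ := hu
      have := htT g
      omega
    rw [h2] at h1
    have haR : (16 : ℝ) ≤ a := by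
      have : 16 ≤ a := by omega
      exact_mod_cast this
    have h4 : (a : ℝ) ^ 3 ≤ M := by exact_mod_cast haj3
    have h5 : (2 : ℝ) / a ≤ 1 := by
      rw [div_le_one (by linarith)]
      linarith
    have h6 : (a : ℝ) ^ 3 ≤ a + 2 := by
      push_cast at h1
      linarith
    nlinarith [sq_nonneg ((a : ℝ) - 1)]
  set θ' : ℕ := Nat.find hex with hθ'
  have hθ'1 : (late C time I θ').card < j0 := Nat.find_spec hex
  have hθ'0 : θ' ≠ 0 := by
    intro h0
    rw [h0] at hθ'1
    have h1 : late C time I 0 = I := by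
      ext w
      simp [late]
    rw [h1] at hθ'1
    omega
  obtain ⟨θ, hθ⟩ := Nat.exists_eq_succ_of_ne_zero hθ'0
  have hθ1 : (late C time I (θ + 1)).card < j0 := by
    rw [← Nat.succ_eq_add_one, ← hθ]; exact hθ'1
  have hθ2 : j0 ≤ (late C time I θ).card := by
    have := Nat.find_min hex (m := θ) (by rw [← hθ', hθ]; exact Nat.lt_succ_self θ)
    omega
  -- the bound at the single times
  have hs : ∀ s ∈ range D, ((early C time I (θ + s)).card : ℝ) ≤
      a + ((width C time (θ + s)).card + 1) * (1 + 2 / a) := by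
    intro s hsr
    rw [Finset.mem_range] at hsr
    exact cut_bound C hC hq1 hq ht θ D (θ + s) (by omega) ha1 (late C time I θ)
      (fun w hw g hg => (Finset.mem_filter.mp hw).2 g hg) hθ2 (early C time I (θ + s))
      (fun w hw g hg => (Finset.mem_filter.mp hw).2 g hg)
  have haR : (1 : ℝ) ≤ a := by exact_mod_cast ha1
  have hsum : (∑ s ∈ range D, ((early C time I (θ + s)).card : ℝ)) ≤
      D * a + ((∑ u, C.gateStorage time u : ℕ) + D) * (1 + 2 / a) := by
    have h1 := Finset.sum_le_sum hs
    rw [Finset.sum_add_distrib, ← Finset.sum_mul, Finset.sum_add_distrib] at h1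
    simp only [Finset.sum_const, Finset.card_range, nsmul_eq_mul, mul_one] at h1
    have h2 : (∑ s ∈ range D, ((width C time (θ + s)).card : ℝ)) ≤
        ((∑ u, C.gateStorage time u : ℕ) : ℝ) := by
      exact_mod_cast sum_width C time θ D
    have h3 : (0 : ℝ) ≤ 1 + 2 / a := by positivity
    have h4 := mul_le_mul_of_nonneg_right (add_le_add_left h2 (D : ℝ)) h3
    linarith
  have hearly := sum_early C time I θ D
  -- pass to real numbers
  set G : ℝ := ((∑ u, C.gateStorage time u : ℕ) : ℝ) with hG
  set K : ℝ := ((∑ w ∈ I, min D (C.inputStorage time (Sum.inl w)) : ℕ) : ℝ) with hK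
  have hE : ((M : ℝ) - j0) * D ≤ (∑ s ∈ range D, ((early C time I (θ + s)).card : ℝ)) + K := by
    have h1 : (M - j0) * D ≤ ∑ s ∈ range D, (early C time I (θ + s)).card +
        ∑ w ∈ I, min D (C.inputStorage time (Sum.inl w)) :=
      (Nat.mul_le_mul_right _ (by omega)).trans hearly
    have h2 : (((M - j0) * D : ℕ) : ℝ) ≤ ((∑ s ∈ range D, (early C time I (θ + s)).card +
        ∑ w ∈ I, min D (C.inputStorage time (Sum.inl w)) : ℕ) : ℝ) := by exact_mod_cast h1
    rw [Nat.cast_mul, Nat.cast_sub hj0le, Nat.cast_add, Nat.cast_sum] at h2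
    exact h2
  set S : ℝ := G + K with hS
  have hK0 : 0 ≤ K := by rw [hK]; exact Nat.cast_nonneg _
  have hapos : (0 : ℝ) < a := by linarith
  have h1 : ((M : ℝ) - j0) * D ≤ D * a + (S + D) * (1 + 2 / a) := by
    have h2 : 0 ≤ K * (2 / a) := by positivity
    rw [hS]
    nlinarith
  have h2 : (a : ℝ) * (((M : ℝ) - j0) * D) ≤ D * a ^ 2 + (S + D) * (a + 2) := by
    have h3 := mul_le_mul_of_nonneg_left h1 hapos.le
    have h4 : (a : ℝ) * (D * a + (S + D) * (1 + 2 / a)) = D * a ^ 2 + (S + D) * (a + 2) := by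
      field_simp
    rw [h4] at h3
    exact h3
  have hajR : (a : ℝ) * j0 ≤ M := by exact_mod_cast haj
  have haj3R : (a : ℝ) ^ 3 ≤ M := by exact_mod_cast haj3
  have hDR : (1 : ℝ) ≤ D := by exact_mod_cast hD1
  have h3 : (D : ℝ) * (M * (a - 1) - (a ^ 2 + a + 2)) ≤ (a + 2) * S := by
    have h4 : (D : ℝ) * (a * j0) ≤ D * M := mul_le_mul_of_nonneg_left hajR (by linarith)
    nlinarith
  set E : ℝ := (b : ℝ) - 3 * c - l + 1 with hEdef
  have hElD : E ≤ l * D := by
    have h4 : b + 1 ≤ l * D + l + 3 * c := by omega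
    have h5 : ((b + 1 : ℕ) : ℝ) ≤ ((l * D + l + 3 * c : ℕ) : ℝ) := by exact_mod_cast h4
    push_cast at h5
    rw [hEdef]
    linarith
  have hE0 : 0 ≤ E := by
    have h4 : 3 * c + l + 3 ≤ b := by omega
    have h5 : ((3 * c + l + 3 : ℕ) : ℝ) ≤ b := by exact_mod_cast h4
    push_cast at h5
    rw [hEdef]
    linarith
  have hlR : (1 : ℝ) ≤ l := by exact_mod_cast hl
  have hcR : (4 : ℝ) ≤ c := by exact_mod_cast hc4
  have hbaR : (b : ℝ) ≤ a := by exact_mod_cast hba
  have hMpos : (0 : ℝ) ≤ M := Nat.cast_nonneg _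
  have h16 : (16 : ℝ) ≤ a := by
    have : 16 ≤ a := by omega
    exact_mod_cast this
  have hKK0 : 0 ≤ (M : ℝ) * (a - 1) - (a ^ 2 + a + 2) := by
    have h4 : (M : ℝ) * 15 ≤ M * (a - 1) := mul_le_mul_of_nonneg_left (by linarith) hMpos
    have h5 : (a : ℝ) ^ 2 + a + 2 ≤ 4 * a ^ 3 := by nlinarith [pow_pos hapos 2]
    linarith
  have h5 : E * ((M : ℝ) * (a - 1) - (a ^ 2 + a + 2)) ≤ (a + 2) * (l * S) := by
    have h6 := mul_le_mul_of_nonneg_right hElD hKK0
    have h7 := mul_le_mul_of_nonneg_left h3 (show (0 : ℝ) ≤ l by linarith)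
    linarith
  have h6 : ((a : ℝ) + 2) * (M * (E - 3)) ≤ (a + 2) * (l * S) := by
    refine le_trans ?_ h5
    have h7 : E * ((a : ℝ) ^ 2 + a + 2) ≤ 3 * M * (a + 2 - E) := by
      have h8 : E ≤ a := by rw [hEdef]; linarith
      have h9 : E * ((a : ℝ) ^ 2 + a + 2) ≤ a * ((a : ℝ) ^ 2 + a + 2) :=
        mul_le_mul_of_nonneg_right h8 (by positivity)
      have h10 : a * ((a : ℝ) ^ 2 + a + 2) ≤ 4 * a ^ 3 := by nlinarith [pow_pos hapos 2]
      have h11 : (2 : ℝ) ≤ a + 2 - E := by linarith
      have h12 : 3 * (M : ℝ) * 2 ≤ 3 * M * (a + 2 - E) :=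
        mul_le_mul_of_nonneg_left h11 (by positivity)
      linarith
    have h13 : E * ((M : ℝ) * (a - 1) - (a ^ 2 + a + 2)) - (a + 2) * (M * (E - 3)) =
        3 * M * (a + 2 - E) - E * (a ^ 2 + a + 2) := by ring
    linarith
  have h7 : (M : ℝ) * (E - 3) ≤ l * S := le_of_mul_le_mul_left h6 (by linarith)
  have h8 : (l : ℝ) * K ≤
      ((∑ w ∈ I, min b (l * C.inputStorage time (Sum.inl w)) : ℕ) : ℝ) := by
    have h9 : l * ∑ w ∈ I, min D (C.inputStorage time (Sum.inl w)) ≤
        ∑ w ∈ I, min b (l * C.inputStorage time (Sum.inl w)) := by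
      rw [Finset.mul_sum]
      refine Finset.sum_le_sum fun w _ => ?_
      refine le_min ?_ (Nat.mul_le_mul_left _ (min_le_right _ _))
      calc l * min D (C.inputStorage time (Sum.inl w)) ≤ l * D :=
            Nat.mul_le_mul_left _ (min_le_left _ _)
        _ ≤ b := by omega
    rw [hK]
    exact_mod_cast h9
  have h9 : (M : ℝ) * b ≤ l * G +
      ((∑ w ∈ I, min b (l * C.inputStorage time (Sum.inl w)) : ℕ) : ℝ) +
      M * (3 * c + l + 2) := by
    have h10 : (M : ℝ) * (E - 3) = M * b - M * (3 * c + l + 2) := by rw [hEdef]; ring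
    have h11 : (l : ℝ) * S = l * G + l * K := by rw [hS]; ring
    linarith
  rw [hG] at h9
  exact_mod_cast h9

end Pool.Agent.Lib_MP_22d2c8_sto
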